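import Pool.Agent.Helper95.FL.Stmts2

set_option autoImplicit false

/-!
# XT-C9: copies of a nice complex
-/

namespace Pool.Agent.Helper59.FL

open Pool.Agent.Helper95.FL
open scoped Classical

variable {X V : Type}

lemma adj_copies (𝒞 : Cx X V) (N : ℕ) (v w : Fin N × V) :
    (𝒞.copies N).Adj v w ↔ v.1 = w.1 ∧ 𝒞.Adj v.2 w.2 := by
  constructor
  · rintro ⟨hne, x, hv, hw⟩
    have hv1 : x.1 = v.1 := congrArg Prod.fst hv
    have hv2 : 𝒞.vert (𝒞.ty v.2) x.2 = v.2 := congrArg Prod.snd hv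
    have hw1 : x.1 = w.1 := congrArg Prod.fst hw
    have hw2 : 𝒞.vert (𝒞.ty w.2) x.2 = w.2 := congrArg Prod.snd hw
    exact ⟨hv1.symm.trans hw1, hne, x.2, hv2, hw2⟩
  · rintro ⟨h1, hne, x, hv, hw⟩
    exact ⟨hne, (v.1, x), Prod.ext rfl hv, Prod.ext h1 hw⟩

lemma edge_copies (𝒞 : Cx X V) (N : ℕ) (s : Fin 3) (x y : Fin N × X) :
    (𝒞.copies N).edge s y = (𝒞.copies N).edge s x ↔ y.1 = x.1 ∧ 𝒞.edge s y.2 = 𝒞.edge s x.2 := by
  simp only [Cx.edge, Cx.copies, Prod.mk.injEq]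
  tauto

theorem stCopies : StCopies := by
  intro X V _ 𝒞 d k N h
  refine ⟨?_, ?_, ?_, ?_, ?_, ?_⟩
  · intro x y hxy
    have h1 : ∀ t, (x.1, 𝒞.vert t x.2) = (y.1, 𝒞.vert t y.2) := hxy
    exact Prod.ext (Prod.mk.inj (h1 0)).1 (h.inj _ _ fun t => (Prod.mk.inj (h1 t)).2)
  · intro s x
    have h1 : (({x.1} : Finset (Fin N)) ×ˢ
        (Finset.univ.filter fun y => 𝒞.edge s y = 𝒞.edge s x.2)).card = d := by
      rw [Finset.card_product, Finset.card_singleton, one_mul, h.star s x.2]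
    rw [← h1]
    refine congrArg Finset.card (Finset.ext fun y => ?_)
    simp only [Finset.mem_filter, Finset.mem_univ, true_and, Finset.mem_product,
      Finset.mem_singleton]
    exact edge_copies 𝒞 N s x y
  · intro u v w huv hvw huw
    rw [adj_copies] at huv hvw huw
    obtain ⟨x, hu, hv, hw⟩ := h.clique3 _ _ _ huv.2 hvw.2 huw.2
    exact ⟨(u.1, x), Prod.ext rfl hu, Prod.ext huv.1 hv, Prod.ext huw.1 hw⟩
  · intro v₁ v₂ v₃ v₄ h13 h24 a12 a23 a34 a41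
    rw [adj_copies] at a12 a23 a34 a41 ⊢
    rw [adj_copies]
    have e13 : v₁.1 = v₃.1 := a12.1.trans a23.1
    have e24 : v₂.1 = v₄.1 := a23.1.trans a34.1
    rcases h.chord4 v₁.2 v₂.2 v₃.2 v₄.2 (fun hh => h13 (Prod.ext e13 hh))
      (fun hh => h24 (Prod.ext e24 hh)) a12.2 a23.2 a34.2 a41.2 with hh | hh
    · exact Or.inl ⟨e13, hh⟩
    · exact Or.inr ⟨e24, hh⟩
  · intro v₁ v₂ v₃ v₄ v₅ h13 h24 h35 h41 h52 a12 a23 a34 a45 a51
    rw [adj_copies] at a12 a23 a34 a45 a51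
    simp only [adj_copies]
    have e13 : v₁.1 = v₃.1 := a12.1.trans a23.1
    have e24 : v₂.1 = v₄.1 := a23.1.trans a34.1
    have e35 : v₃.1 = v₅.1 := a34.1.trans a45.1
    have e41 : v₄.1 = v₁.1 := a45.1.trans a51.1
    have e52 : v₅.1 = v₂.1 := a51.1.trans a12.1
    rcases h.chord5 v₁.2 v₂.2 v₃.2 v₄.2 v₅.2 (fun hh => h13 (Prod.ext e13 hh))
      (fun hh => h24 (Prod.ext e24 hh)) (fun hh => h35 (Prod.ext e35 hh))
      (fun hh => h41 (Prod.ext e41 hh)) (fun hh => h52 (Prod.ext e52 hh))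
      a12.2 a23.2 a34.2 a45.2 a51.2 with hh | hh | hh | hh | hh
    · exact Or.inl ⟨e13, hh⟩
    · exact Or.inr (Or.inl ⟨e24, hh⟩)
    · exact Or.inr (Or.inr (Or.inl ⟨e35, hh⟩))
    · exact Or.inr (Or.inr (Or.inr (Or.inl ⟨e41, hh⟩)))
    · exact Or.inr (Or.inr (Or.inr (Or.inr ⟨e52, hh⟩)))
  · intro x₀ η
    obtain ⟨δ, h1, h2, h3⟩ := h.flip x₀.2 η
    have key : ∀ x : Fin N × X, (𝒞.copies N).h (fun e => if e.1.1 = x₀.1 ∧ e.2.1 = x₀.1 then
        δ (e.1.2, e.2.2) else 0) x = if x.1 = x₀.1 then 𝒞.h δ x.2 else 0 := by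
      intro x
      by_cases hx : x.1 = x₀.1
      · rw [if_pos hx]
        refine Finset.sum_congr rfl fun s _ => ?_
        simp [Cx.edge, Cx.copies, hx]
      · rw [if_neg hx]
        refine Finset.sum_eq_zero fun s _ => ?_
        simp [Cx.edge, Cx.copies, hx]
    refine ⟨fun e => if e.1.1 = x₀.1 ∧ e.2.1 = x₀.1 then δ (e.1.2, e.2.2) else 0, ?_, ?_, ?_⟩
    · rw [key, if_pos rfl, h1]
    · intro x hx
      rw [key]
      split_ifs with hc
      · exact h2 _ fun hh => hx (Prod.ext hc hh)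
      · simp
    · intro e
      by_cases hc : e.1.1 = x₀.1 ∧ e.2.1 = x₀.1
      · simp only [hc, and_self, if_true]
        exact h3 _
      · simp only [hc, if_false, abs_zero]
        positivity

end Pool.Agent.Helper59.FL
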